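import Mathlib
import Pool.Agent.W2helper39.FB.Defs

/-!
Points of bounded complexity on quasi-projective varieties over function fields.

`F` is a function field of one variable over `ℂ`, and `U = {G = 0, Q ≠ 0}` is a quasi-projective variety
over `F` in the projective space with the coordinates `x`; the exceptional set `V'` is given by the
polynomials `H` over `F`. The points are points over finite extensions `L` of `F`. `height ℂ x` is the
height of the point with the homogeneous coordinates `x` relative to `L` (that is, `[L : F]` times the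
height relative to `F`), and `hgt ℂ f` is the degree of `f`, the number of its poles.
-/

set_option autoImplicit false

namespace Pool.Agent.W2helper39.VF

open MvPolynomial FF
open Pool.Agent.W2helper39.FB (UnitOff PowerOff chi)
open Pool.Agent.W2helper39.MU (laur)
open Pool.Agent.Results.MP_70ba79_ag.SparseCurves (height)
open Pool.Agent.W603.LV (canDeg hgt)

variable {F : Type} [Field F] {ι κ : Type} {M : ℕ}

/-- `x` is a point of `U = {G = 0, Q ≠ 0}` -/
def InU (G : ι → MvPolynomial (Fin M) F) (Q : MvPolynomial (Fin M) F) {K : Type} [Field K]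
    [Algebra F K] (x : Fin M → K) : Prop :=
  (∀ j, aeval x (G j) = 0) ∧ aeval x Q ≠ 0

/-- `x` is a point of `V' = {H = 0}` -/
def InV (H : κ → MvPolynomial (Fin M) F) {K : Type} [Field K] [Algebra F K] (x : Fin M → K) : Prop :=
  ∀ j, aeval x (H j) = 0

section conditions

variable (m : ℕ) (G : ι → MvPolynomial (Fin M) F) (Q : MvPolynomial (Fin M) F)
  (H : κ → MvPolynomial (Fin M) F)

/-- Every nonconstant map over the algebraic closure of `F` from the punctured line to `U`, with
projective coordinates given by Laurent polynomials with at most `m` terms, lies in `V'`. -/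
def GmIn : Prop :=
  ∀ (a : Fin M → Fin m → AlgebraicClosure F) (b : Fin M → Fin m → ℤ),
    (∀ t, t ≠ 0 → InU G Q (laur a b t)) →
    (∃ t u c c', t ≠ 0 ∧ u ≠ 0 ∧ laur a b t c * laur a b u c' ≠ laur a b t c' * laur a b u c) →
    ∀ t, t ≠ 0 → InV H (laur a b t)

/-- `x` is a point of `U` outside `V'` with coordinates which are sums of `m` elements, each of them
zero or an `S`-unit, and `Q (x)` is an `S`-unit. -/
def IsSPoint {L : Type} [Field L] [Algebra ℂ L] [Algebra F L] (S : Finset (Place ℂ L))
    (x : Fin M → L) : Prop :=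
  x ≠ 0 ∧ (∃ t : Fin M → Fin m → L, (∀ c i, t c i = 0 ∨ UnitOff S (t c i)) ∧
      ∀ c, x c = ∑ i, t c i) ∧
    (∀ j, aeval x (G j) = 0) ∧ UnitOff S (aeval x Q) ∧ ¬ InV H x

/-- `x` is a point of `U` outside `V'` with coordinates which are sums of `m` terms `a u`, and
`Q (x) = q v ≠ 0`, where the orders outside `S` of the zeros and poles of all `u` and of `v` are multiples
of `N`. -/
def IsNPoint {L : Type} [Field L] [Algebra ℂ L] [Algebra F L] (S : Finset (Place ℂ L)) (N : ℕ)
    (a u : Fin M → Fin m → L) (q v : L) (x : Fin M → L) : Prop :=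
  (∀ c i, PowerOff S N (u c i)) ∧ PowerOff S N v ∧ (∀ c, x c = ∑ i, a c i * u c i) ∧ x ≠ 0 ∧
    (∀ j, aeval x (G j) = 0) ∧ aeval x Q = q * v ∧ q ≠ 0 ∧ ¬ InV H x

variable [Algebra ℂ F]

/-- For each finite extension `L` of `F` and each finite set `S` of places of `L` the heights of the
points as in `IsSPoint` are bounded. -/
def BoundedHeights : Prop :=
  ∀ (L : Type) [Field L] [Algebra ℂ L] [Algebra F L] [IsScalarTower ℂ F L]
    [FiniteDimensional F L] [IsFF ℂ L] (S : Finset (Place ℂ L)), ∃ B : ℤ, ∀ x : Fin M → L,
      IsSPoint m G Q H S x → height ℂ x ≤ B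

/-- Vojta's inequality: for all finite extensions `L` of `F` of genus `g`, all finite sets `S` of places of
`L` and all points as in `IsSPoint` the height relative to `L` is at most
`C (max (2 g - 2 + #S, 0) + [L : F])`. -/
def VojtaInequality : Prop :=
  ∃ C : ℕ, ∀ (L : Type) [Field L] [Algebra ℂ L] [Algebra F L] [IsScalarTower ℂ F L]
    [FiniteDimensional F L] [IsFF ℂ L] (S : Finset (Place ℂ L)) (x : Fin M → L),
      IsSPoint m G Q H S x → height ℂ x ≤ C * (chi S + Module.finrank F L)

/-- For all finite extensions `L` of `F` of genus `g`, all finite sets `S` of places of `L` and all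
points as in `IsNPoint` with `N ≥ N₀` the height relative to `L` is at most `C` times the sum of
`max (2 g - 2 + #S, 0)`, `[L : F]`, and the degrees of all `a` and `q`. -/
def PowerInequality : Prop :=
  ∃ N₀ C : ℕ, ∀ (L : Type) [Field L] [Algebra ℂ L] [Algebra F L] [IsScalarTower ℂ F L]
    [FiniteDimensional F L] [IsFF ℂ L] (S : Finset (Place ℂ L)) (N : ℕ)
    (a u : Fin M → Fin m → L) (q v : L) (x : Fin M → L), N₀ ≤ N →
      IsNPoint m G Q H S N a u q v x →
        height ℂ x ≤ C * (chi S + Module.finrank F L + ∑ c, ∑ i, hgt ℂ (a c i) + hgt ℂ q)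

end conditions

end Pool.Agent.W2helper39.VF
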