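import Mathlib
import Pool.Agent.W2helper39.VF.Defs
import Pool.Agent.W2helper39.FB.Bound
import Pool.Agent.W603.PV.Ext

/-!
From the curves to the inequality.
-/

set_option autoImplicit false
set_option linter.unusedSectionVars false

namespace Pool.Agent.W2helper39.VF

open MvPolynomial FF
open Pool.Agent.W2helper39.FB (UnitOff PowerOff chi IsPoint size)
open Pool.Agent.W2helper39.MU (laur Good val)
open Pool.Agent.Results.MP_70ba79_ag.SparseCurves (height)
open Pool.Agent.W603.LV (canDeg hgt hgt_nonneg hgt_zero hgt_one)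

section univ

variable {F : Type} [Field F] {M : ℕ} {τ : Type} [Fintype τ]

/-- the universal polynomials -/
noncomputable def unv (T : Finset (Fin M →₀ ℕ)) {r : ℕ} (e : τ × T ≃ Fin r) (o : τ) :
    MvPolynomial (Fin r ⊕ Fin M) ℂ :=
  ∑ d : T, X (Sum.inl (e (o, d))) * rename Sum.inr (monomial d.1 1)

/-- the coefficients -/
noncomputable def cfs (T : Finset (Fin M →₀ ℕ)) {r : ℕ} (e : τ × T ≃ Fin r)
    (P : τ → MvPolynomial (Fin M) F) : Fin r → F :=
  fun i => coeff (e.symm i).2.1 (P (e.symm i).1)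

theorem val_unv (T : Finset (Fin M →₀ ℕ)) {r : ℕ} (e : τ × T ≃ Fin r)
    (P : τ → MvPolynomial (Fin M) F) (hP : ∀ o, (P o).support ⊆ T) {K : Type} [Field K]
    (φ : ℂ →+* K) [Algebra F K] (x : Fin M → K) (o : τ) :
    val φ (fun i => algebraMap F K (cfs T e P i)) x (unv T e o) = aeval x (P o) := by
  classical
  unfold val unv
  rw [eval₂_sum]
  have h1 : ∀ d : T, eval₂ φ (Sum.elim (fun i => algebraMap F K (cfs T e P i)) x)
      (X (Sum.inl (e (o, d))) * rename Sum.inr (monomial d.1 1)) =
      algebraMap F K (coeff d.1 (P o)) * ∏ i, x i ^ d.1 i := by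
    intro d
    rw [eval₂_mul, eval₂_X, eval₂_rename, eval₂_monomial, map_one, one_mul]
    have h2 : (Sum.elim (fun i => algebraMap F K (cfs T e P i)) x) (Sum.inl (e (o, d))) =
        algebraMap F K (coeff d.1 (P o)) := by
      show algebraMap F K (cfs T e P (e (o, d))) = _
      unfold cfs
      rw [Equiv.symm_apply_apply]
    rw [h2, Finsupp.prod_fintype _ _ fun p => pow_zero _]
    rfl
  rw [Finset.sum_congr rfl fun d _ => h1 d,
    Finset.sum_coe_sort T fun d => algebraMap F K (coeff d (P o)) * ∏ i, x i ^ d i,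
    aeval_def, eval₂_eq']
  refine (Finset.sum_subset (hP o) fun d _ hd => ?_).symm
  rw [notMem_support_iff.1 hd, map_zero, zero_mul]

end univ

variable {F : Type} [Field F] [Algebra ℂ F] [IsFF ℂ F] {ι κ : Type} {M m : ℕ}
  {G : ι → MvPolynomial (Fin M) F} {Q : MvPolynomial (Fin M) F} {H : κ → MvPolynomial (Fin M) F}

theorem power_of_gm [Finite ι] (h : GmIn m G Q H) : PowerInequality m G Q H := by
  classical
  let _ : Fintype ι := Fintype.ofFinite ι
  let P : Option ι → MvPolynomial (Fin M) F := fun o => match o with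
    | none => Q
    | some j => G j
  let T : Finset (Fin M →₀ ℕ) := Finset.univ.biUnion fun o => (P o).support
  have hT : ∀ o, (P o).support ⊆ T := fun o d hd =>
    Finset.mem_biUnion.2 ⟨o, Finset.mem_univ _, hd⟩
  obtain ⟨r, hr⟩ : ∃ r, r = Fintype.card (Option ι × T) := ⟨_, rfl⟩
  let e : Option ι × T ≃ Fin r := (Fintype.equivFin _).trans (finCongr hr.symm)
  obtain ⟨N₀, C, B, hD⟩ := Pool.Agent.W2helper39.FB.dichotomy (m := m)
    (G := fun j : ι => unv T e (some j)) (Q := unv T e (none : Option ι))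
  set sF : Fin r → F := cfs T e P with hsF
  set A : ℤ := ∑ j, hgt ℂ (sF j) with hA
  have hA0 : 0 ≤ A := Finset.sum_nonneg fun j _ => hgt_nonneg _
  obtain ⟨A', hA'⟩ : ∃ A' : ℕ, A ≤ A' := ⟨A.toNat, Int.self_le_toNat _⟩
  refine ⟨N₀, C * (A' + 1), fun L _ _ _ _ _ _ S N a u q v x hN hp => ?_⟩
  obtain ⟨hu, hv, hx, hx0, hG, hQ, hq0, hV⟩ := hp
  have hval : ∀ o, val (algebraMap ℂ L) (fun i => algebraMap F L (sF i)) x (unv T e o) =
      aeval x (P o) := fun o => val_unv T e P hT (algebraMap ℂ L) x o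
  have hpt : IsPoint m (fun j : ι => unv T e (some j)) (unv T e (none : Option ι)) S N
      (fun i => algebraMap F L (sF i)) a u q v x := by
    refine ⟨hu, hv, hx, hx0, fun j => ?_, ?_, hq0⟩
    · rw [hval]
      exact hG j
    · rw [hval]
      exact hQ
  rcases hD L S N _ a u q v x hN hpt with h1 | ⟨b, -, hb⟩
  · -- small height
    refine h1.trans ?_
    unfold size
    have h2 : ∑ j, hgt ℂ (algebraMap F L (sF j)) = Module.finrank F L * A := by
      rw [hA, Finset.mul_sum]
      exact Finset.sum_congr rfl fun j _ => Pool.Agent.W603.PV.hgt_algebraMap _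
    rw [h2]
    have h3 : 0 ≤ chi S := Pool.Agent.W2helper39.FB.chi_nonneg S
    have h4 : (0 : ℤ) ≤ ∑ c, ∑ i, hgt ℂ (a c i) :=
      Finset.sum_nonneg fun c _ => Finset.sum_nonneg fun i _ => hgt_nonneg _
    have h5 : (0 : ℤ) ≤ hgt ℂ q := hgt_nonneg _
    have h6 : (0 : ℤ) ≤ Module.finrank F L := Int.natCast_nonneg _
    have h7 : (Module.finrank F L : ℤ) * A ≤ Module.finrank F L * A' :=
      mul_le_mul_of_nonneg_left hA' h6
    have h8 : chi S + (Module.finrank F L : ℤ) * A + ∑ c, ∑ i, hgt ℂ (a c i) + hgt ℂ q ≤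
        (A' + 1) * (chi S + Module.finrank F L + ∑ c, ∑ i, hgt ℂ (a c i) + hgt ℂ q) := by
      have h9 : (0 : ℤ) ≤ A' := Int.natCast_nonneg _
      nlinarith [mul_nonneg h9 h3, mul_nonneg h9 h4, mul_nonneg h9 h5]
    have h10 := mul_le_mul_of_nonneg_left h8 (Int.natCast_nonneg C)
    refine h10.trans (le_of_eq ?_)
    push_cast
    ring
  · -- the curve
    exfalso
    apply hV
    let η : L →ₐ[F] AlgebraicClosure F := IsAlgClosed.lift
    have hη : ∀ c : F, η (algebraMap F L c) = algebraMap F (AlgebraicClosure F) c :=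
      fun c => η.commutes c
    have h2 := (hb.map (η : L →+* AlgebraicClosure F)).curve
    have h3 : (fun i => (η : L →+* AlgebraicClosure F) (algebraMap F L (sF i))) =
        fun i => algebraMap F (AlgebraicClosure F) (sF i) := funext fun i => hη _
    rw [h3] at h2
    have h4 : ∀ t, t ≠ 0 → InU G Q (laur (fun c i => (η : L →+* AlgebraicClosure F)
        (a c i * u c i)) b t) := by
      intro t ht
      obtain ⟨g1, g2⟩ := h2.1 t ht
      refine ⟨fun j => ?_, ?_⟩
      · have := g1 j
        rwa [val_unv T e P hT _ _ (some j)] at this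
      · rwa [val_unv T e P hT _ _ (none : Option ι)] at g2
    have h5 := h _ b h4 h2.2 1 one_ne_zero
    rw [Pool.Agent.W2helper39.MU.laur_one] at h5
    intro j
    have h6 := h5 j
    have h7 : (fun c => ∑ i, (η : L →+* AlgebraicClosure F) (a c i * u c i)) =
        fun c => η (x c) := by
      funext c
      rw [hx c, map_sum]
      rfl
    rw [h7] at h6
    have h8 := MvPolynomial.comp_aeval_apply (f := x) η (H j)
    have h9 : (aeval fun c => η (x c)) (H j) = η (aeval x (H j)) := h8.symm
    rw [h9] at h6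
    exact (map_eq_zero η).1 h6

end Pool.Agent.W2helper39.VF
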