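import Mathlib
import Pool.Agent.W2helper39.VF.Up
import Pool.Agent.W2helper39.SB.Eng

/-!
From bounded heights to the curves.
-/

set_option autoImplicit false
set_option linter.unusedSectionVars false

namespace Pool.Agent.W2helper39.VF

open MvPolynomial FF
open Pool.Agent.W2helper39.FB (UnitOff PowerOff chi hgt_add hgt_mul' hgt_neg)
open Pool.Agent.W2helper39.MU (laur Good val cf exps mem_exps laur_cf coeff_zero cf_eq_zero)
open Pool.Agent.Results.MP_70ba79_ag.SparseCurves (height)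
open Pool.Agent.W603.LV (canDeg hgt hgt_nonneg hgt_zero hgt_one hgt_root hgt_pow hgt_inv exists_supp)

/-- a root of a polynomial with coefficients of small height -/
theorem hgt_le_of_rel (T : Finset ℤ) : ∃ K : ℕ, ∀ (L : Type) [Field L] [Algebra ℂ L] [IsFF ℂ L]
    (d : ℤ → L) (B : ℤ) (g : L), g ≠ 0 → (∀ e ∈ T, hgt ℂ (d e) ≤ B) → (∃ e ∈ T, d e ≠ 0) →
      ∑ e ∈ T, d e * g ^ e = 0 → hgt ℂ g ≤ K * B := by
  classical
  obtain ⟨N, hN⟩ : ∃ N : ℕ, ∀ e ∈ T, 0 ≤ e + N := by
    refine ⟨∑ e ∈ T, e.natAbs, fun e he => ?_⟩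
    have h1 : e.natAbs ≤ ∑ e ∈ T, e.natAbs :=
      Finset.single_le_sum (f := fun e : ℤ => e.natAbs) (fun _ _ => Nat.zero_le _) he
    omega
  refine ⟨(∑ e ∈ T, (e + N).toNat) + 1, fun L _ _ _ d B g hg hB hne hrel => ?_⟩
  let p : Polynomial L := ∑ e ∈ T, Polynomial.C (d e) * Polynomial.X ^ (e + N).toNat
  have hcoeff : ∀ e ∈ T, p.coeff (e + N).toNat = d e := by
    intro e he
    simp only [p, Polynomial.finsetSum_coeff, Polynomial.coeff_C_mul, Polynomial.coeff_X_pow]
    rw [Finset.sum_eq_single e]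
    · simp
    · intro e' he' hne
      rw [if_neg, mul_zero]
      intro h2
      apply hne
      have h3 := hN e he
      have h4 := hN e' he'
      omega
    · intro h2
      exact absurd he h2
  have hB0 : 0 ≤ B := by
    obtain ⟨e, he, -⟩ := hne
    exact (hgt_nonneg _).trans (hB e he)
  have hcoeff' : ∀ n, hgt ℂ (p.coeff n) ≤ B := by
    intro n
    by_cases h : ∃ e ∈ T, (e + N).toNat = n
    · obtain ⟨e, he, rfl⟩ := h
      rw [hcoeff e he]
      exact hB e he
    · have h1 : p.coeff n = 0 := by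
        simp only [p, Polynomial.finsetSum_coeff, Polynomial.coeff_C_mul, Polynomial.coeff_X_pow]
        refine Finset.sum_eq_zero fun e he => ?_
        rw [if_neg, mul_zero]
        intro h2
        exact h ⟨e, he, h2.symm⟩
      rw [h1, hgt_zero]
      exact hB0
  have hp0 : p ≠ 0 := by
    intro h0
    obtain ⟨e, he, hde⟩ := hne
    apply hde
    rw [← hcoeff e he, h0, Polynomial.coeff_zero]
  have hdeg : p.natDegree ≤ ∑ e ∈ T, (e + N).toNat := by
    refine Polynomial.natDegree_sum_le_of_forall_le _ _ fun e he => ?_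
    refine (Polynomial.natDegree_C_mul_X_pow_le _ _).trans ?_
    exact Finset.single_le_sum (f := fun e : ℤ => (e + N).toNat) (fun _ _ => Nat.zero_le _) he
  have hev : Polynomial.eval g p = 0 := by
    have h1 : Polynomial.eval g p = g ^ N * ∑ e ∈ T, d e * g ^ e := by
      simp only [p, Polynomial.eval_finsetSum, Polynomial.eval_mul, Polynomial.eval_C,
        Polynomial.eval_pow, Polynomial.eval_X]
      rw [Finset.mul_sum]
      refine Finset.sum_congr rfl fun e he => ?_
      have h3 : g ^ (e + N).toNat = g ^ N * g ^ e := by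
        rw [← zpow_natCast, ← zpow_natCast, Int.toNat_of_nonneg (hN e he), zpow_add₀ hg, mul_comm]
      rw [h3]
      ring
    rw [h1, hrel, mul_zero]
  rw [Polynomial.eval_eq_sum_range] at hev
  have h1 := hgt_root (k := ℂ) (D := p.natDegree) (fun i => p.coeff i)
    (Polynomial.leadingCoeff_ne_zero.2 hp0) g hev
  have h2 : ∑ i ∈ Finset.range p.natDegree, hgt ℂ (p.coeff i) ≤ p.natDegree * B := by
    refine (Finset.sum_le_sum fun i _ => hcoeff' i).trans (le_of_eq ?_)
    rw [Finset.sum_const, Finset.card_range, nsmul_eq_mul]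
  have h3 : (p.natDegree : ℤ) * B ≤ ((∑ e ∈ T, (e + N).toNat : ℕ) : ℤ) * B :=
    mul_le_mul_of_nonneg_right (by exact_mod_cast hdeg) hB0
  have h4 := hcoeff' p.natDegree
  have h5 : hgt ℂ g ≤ B + ((∑ e ∈ T, (e + N).toNat : ℕ) : ℤ) * B := by linarith
  refine h5.trans (le_of_eq ?_)
  push_cast
  ring

/-- a Laurent polynomial without zeros is a monomial -/
theorem monomial_of_ne' {K : Type} [Field K] [IsAlgClosed K] (T : Finset ℤ) (d : ℤ → K)
    (h : ∀ t : K, t ≠ 0 → ∑ e ∈ T, t ^ e * d e ≠ 0) :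
    ∃ e₀ ∈ T, d e₀ ≠ 0 ∧ ∀ e ∈ T, e ≠ e₀ → d e = 0 := by
  classical
  obtain ⟨N, hN⟩ : ∃ N : ℕ, ∀ e ∈ T, 0 ≤ e + N := by
    refine ⟨∑ e ∈ T, e.natAbs, fun e he => ?_⟩
    have h1 : e.natAbs ≤ ∑ e ∈ T, e.natAbs :=
      Finset.single_le_sum (f := fun e : ℤ => e.natAbs) (fun _ _ => Nat.zero_le _) he
    omega
  let p : Polynomial K := ∑ e ∈ T, Polynomial.C (d e) * Polynomial.X ^ (e + N).toNat
  have hev : ∀ t : K, t ≠ 0 → Polynomial.eval t p = t ^ N * ∑ e ∈ T, t ^ e * d e := by
    intro t ht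
    simp only [p, Polynomial.eval_finsetSum, Polynomial.eval_mul, Polynomial.eval_C,
      Polynomial.eval_pow, Polynomial.eval_X]
    rw [Finset.mul_sum]
    refine Finset.sum_congr rfl fun e he => ?_
    have h3 : t ^ (e + N).toNat = t ^ N * t ^ e := by
      rw [← zpow_natCast, ← zpow_natCast, Int.toNat_of_nonneg (hN e he), zpow_add₀ ht, mul_comm]
    rw [h3]
    ring
  have hcoeff : ∀ e ∈ T, p.coeff (e + N).toNat = d e := by
    intro e he
    simp only [p, Polynomial.finsetSum_coeff, Polynomial.coeff_C_mul, Polynomial.coeff_X_pow]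
    rw [Finset.sum_eq_single e]
    · simp
    · intro e' he' hne
      rw [if_neg, mul_zero]
      intro h2
      apply hne
      have h3 := hN e he
      have h4 := hN e' he'
      omega
    · intro h2
      exact absurd he h2
  have hroot : ∀ t : K, t ≠ 0 → Polynomial.eval t p ≠ 0 := fun t ht => by
    rw [hev t ht]
    exact mul_ne_zero (pow_ne_zero _ ht) (h t ht)
  have hp0 : p ≠ 0 := by
    intro h0
    apply hroot 1 one_ne_zero
    rw [h0, Polynomial.eval_zero]
  have hsplit := IsAlgClosed.splits p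
  have hroots : ∀ z ∈ p.roots, z = 0 := by
    intro z hz
    by_contra hz0
    exact hroot z hz0 ((Polynomial.mem_roots hp0).1 hz)
  have hrep : p.roots = Multiset.replicate (Multiset.card p.roots) 0 :=
    Multiset.eq_replicate.2 ⟨rfl, hroots⟩
  have hpe : p = Polynomial.C p.leadingCoeff * Polynomial.X ^ (Multiset.card p.roots) := by
    have h1 := hsplit.eq_prod_roots
    rw [hrep, Multiset.map_replicate, Multiset.prod_replicate, map_zero, sub_zero] at h1
    exact h1
  set k := Multiset.card p.roots with hk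
  have hex : ∃ e₀ ∈ T, (e₀ + N).toNat = k ∧ d e₀ ≠ 0 := by
    by_contra hcon
    push Not at hcon
    apply hp0
    have h2 : ∀ e ∈ T, d e = 0 := by
      intro e he
      by_cases hek : (e + N).toNat = k
      · exact hcon e he hek
      · rw [← hcoeff e he, hpe, Polynomial.coeff_C_mul, Polynomial.coeff_X_pow, if_neg hek,
          mul_zero]
    simp only [p]
    refine Finset.sum_eq_zero fun e he => ?_
    rw [h2 e he, map_zero, zero_mul]
  obtain ⟨e₀, he₀, hek, hde⟩ := hex
  refine ⟨e₀, he₀, hde, fun e he hne => ?_⟩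
  have hek' : (e + N).toNat ≠ k := by
    rw [← hek]
    intro h2
    apply hne
    have h3 := hN e he
    have h4 := hN e₀ he₀
    omega
  rw [← hcoeff e he, hpe, Polynomial.coeff_C_mul, Polynomial.coeff_X_pow, if_neg hek', mul_zero]

/-- the expansion of a polynomial on a curve -/
theorem exists_expand {F : Type} [Field F] {M m : ℕ} {K : Type} [Field K] [Algebra F K]
    (y : Fin M → Fin m → K) (b : Fin M → Fin m → ℤ) (P : MvPolynomial (Fin M) F) :
    ∃ (T : Finset ℤ) (d : ℤ → K), ∀ t : K, t ≠ 0 →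
      aeval (laur y b t) P = ∑ e ∈ T, t ^ e * d e := by
  have hval : ∀ x : Fin M → K, val (algebraMap F K) (fun j : Fin 0 => j.elim0) x
      (rename Sum.inr P) = aeval x P := by
    intro x
    unfold val
    rw [eval₂_rename]
    rfl
  refine ⟨(Pool.Agent.W2helper39.MU.sub m (rename Sum.inr P :
      MvPolynomial (Fin 0 ⊕ Fin M) F)).support.image
      (Pool.Agent.W2helper39.MU.wt (Pool.Agent.W2helper39.MU.wv 0 b)),
    fun e => eval₂ (algebraMap F K) (Pool.Agent.W2helper39.MU.pt (fun j : Fin 0 => j.elim0) y)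
      (Pool.Agent.W2helper39.MU.cmp (Pool.Agent.W2helper39.MU.wv 0 b) e
        (Pool.Agent.W2helper39.MU.sub m (rename Sum.inr P : MvPolynomial (Fin 0 ⊕ Fin M) F))),
    fun t ht => ?_⟩
  rw [← hval]
  exact Pool.Agent.W2helper39.MU.val_expand (algebraMap F K) (rename Sum.inr P)
    (fun j : Fin 0 => j.elim0) y b ht

theorem finite_zeros {K : Type} [Field K] [Infinite K] (T : Finset ℤ) (d : ℤ → K) {t₁ : K}
    (h : ∑ e ∈ T, t₁ ^ e * d e ≠ 0) : {t : K | t ≠ 0 ∧ ∑ e ∈ T, t ^ e * d e = 0}.Finite := by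
  by_contra hinf
  apply h
  have h1 := coeff_zero T d (by
    refine Set.Infinite.mono ?_ hinf
    rintro t ⟨ht, h0⟩
    refine ⟨ht, ?_⟩
    rw [← h0]
    exact Finset.sum_congr rfl fun e _ => mul_comm _ _)
  exact Finset.sum_eq_zero fun e he => by rw [h1 e he, mul_zero]

variable {F : Type} [Field F] [Algebra ℂ F] [IsFF ℂ F] {ι κ : Type} {M m : ℕ}
  {G : ι → MvPolynomial (Fin M) F} {Q : MvPolynomial (Fin M) F} {H : κ → MvPolynomial (Fin M) F}

theorem gm_of_bounded (h : BoundedHeights m G Q H) : GmIn m G Q H := by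
  classical
  intro a b h1 h2
  by_contra hcon
  push Not at hcon
  obtain ⟨t₁, ht₁, hV⟩ := hcon
  unfold InV at hV
  push Not at hV
  obtain ⟨j₁, hj₁⟩ := hV
  obtain ⟨t, u, c, c', ht, hu, hne⟩ := h2
  -- the field
  let S₀ : Set (AlgebraicClosure F) := Set.range fun p : Fin M × Fin m => a p.1 p.2
  have hS₀ : Finite S₀ := Set.finite_range _
  let L : IntermediateField F (AlgebraicClosure F) := IntermediateField.adjoin F S₀
  have hfin : FiniteDimensional F L :=
    IntermediateField.finiteDimensional_adjoin fun x _ =>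
      (Algebra.IsAlgebraic.isAlgebraic x).isIntegral
  have hFF : IsFF ℂ L := Pool.Agent.W603.PV.isFF_of_finite (F := F)
  let aL : Fin M → Fin m → L := fun c i =>
    ⟨a c i, IntermediateField.subset_adjoin F S₀ ⟨(c, i), rfl⟩⟩
  have hlaur : ∀ (t : L) c, L.val (laur aL b t c) = laur a b (L.val t) c := by
    intro t c
    simp only [laur, map_sum, map_mul, map_zpow₀]
    rfl
  have haev : ∀ (t : L) (P : MvPolynomial (Fin M) F),
      L.val (aeval (laur aL b t) P) = aeval (laur a b (L.val t)) P := by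
    intro t P
    have h3 := MvPolynomial.comp_aeval_apply (f := laur aL b t) L.val P
    rw [h3]
    congr 2
    funext c
    exact hlaur t c
  have hcf : ∀ c e, L.val (cf aL b c e) = cf a b c e := by
    intro c e
    unfold cf
    rw [map_sum]
    rfl
  have hla : ∀ c (t : AlgebraicClosure F), laur a b t c = ∑ e ∈ exps b, t ^ e * cf a b c e := by
    intro c t
    rw [laur_cf _ _ _ _ _ (mem_exps b c)]
    exact Finset.sum_congr rfl fun e _ => mul_comm _ _
  have hlaL : ∀ c (t : L), laur aL b t c = ∑ e ∈ exps b, cf aL b c e * t ^ e := by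
    intro c t
    rw [laur_cf _ _ _ _ _ (mem_exps b c)]
  obtain ⟨τ, hτ⟩ := IsFF.exists_transcendental (k := ℂ) (K := L)
  have hτ0 : τ ≠ 0 := by
    rintro rfl
    exact hτ isAlgebraic_zero
  -- the polynomial `Q` on the curve
  obtain ⟨TQ, dQ, hdQ⟩ := exists_expand a b Q
  obtain ⟨e₀, he₀, -, hdz⟩ := monomial_of_ne' TQ dQ (fun t ht => by
    rw [← hdQ t ht]
    exact (h1 t ht).2)
  have hQ : ∀ t : AlgebraicClosure F, t ≠ 0 → aeval (laur a b t) Q = t ^ e₀ * dQ e₀ := by
    intro t ht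
    rw [hdQ t ht, Finset.sum_eq_single e₀]
    · intro e he hne
      rw [hdz e he hne, mul_zero]
    · intro h0
      exact absurd he₀ h0
  let qL : L := aeval (laur aL b 1) Q
  have hqL : L.val qL = dQ e₀ := by
    show L.val (aeval (laur aL b 1) Q) = _
    rw [haev, map_one, hQ 1 one_ne_zero, one_zpow, one_mul]
  have hqL0 : qL ≠ 0 := by
    intro h0
    have h3 := (h1 1 one_ne_zero).2
    rw [hQ 1 one_ne_zero, one_zpow, one_mul, ← hqL, h0, map_zero] at h3
    exact h3 rfl
  -- zeros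
  have hz : ∀ c, (∃ t, t ≠ 0 ∧ laur a b t c ≠ 0) →
      {t : AlgebraicClosure F | t ≠ 0 ∧ laur a b t c = 0}.Finite := by
    rintro c ⟨t, ht, h3⟩
    rw [hla] at h3
    refine (finite_zeros _ _ h3).subset ?_
    rintro u ⟨hu, h4⟩
    rw [hla] at h4
    exact ⟨hu, h4⟩
  have hZc := hz c (by
    by_contra h3
    push Not at h3
    apply hne
    rw [h3 t ht, h3 u hu]
    ring)
  have hZc' := hz c' (by
    by_contra h3
    push Not at h3
    apply hne
    rw [h3 t ht, h3 u hu]
    ring)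
  obtain ⟨TH, dH, hdH⟩ := exists_expand a b (H j₁)
  have hZH : {t : AlgebraicClosure F | t ≠ 0 ∧ aeval (laur a b t) (H j₁) = 0}.Finite := by
    rw [hdH t₁ ht₁] at hj₁
    refine (finite_zeros _ _ hj₁).subset ?_
    rintro u ⟨hu, h4⟩
    rw [hdH u hu] at h4
    exact ⟨hu, h4⟩
  -- the places
  obtain ⟨T1, hT1⟩ := exists_supp (k := ℂ) (Finset.univ : Finset (Fin M × Fin m))
    (fun p => aL p.1 p.2)
  obtain ⟨T2, hT2⟩ := exists_supp (k := ℂ) (Finset.univ : Finset (Fin 2)) ![τ, qL]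
  let S : Finset (Place ℂ L) := T1 ∪ T2
  have hSτ : ∀ P ∉ S, P.ord τ = 0 := by
    intro P hP
    by_contra h3
    exact hP (Finset.mem_union_right _ (hT2 0 (Finset.mem_univ _) P h3))
  have hSq : ∀ P ∉ S, P.ord qL = 0 := by
    intro P hP
    by_contra h3
    exact hP (Finset.mem_union_right _ (hT2 1 (Finset.mem_univ _) P h3))
  have hSa : ∀ c i, ∀ P ∉ S, P.ord (aL c i) = 0 := by
    intro c i P hP
    by_contra h3
    exact hP (Finset.mem_union_left _ (hT1 (c, i) (Finset.mem_univ _) P h3))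
  obtain ⟨B, hB⟩ := h L S
  obtain ⟨K, hK⟩ := hgt_le_of_rel (exps b)
  set A₁ : ℤ := ∑ e ∈ exps b, (hgt ℂ (cf aL b c e) + hgt ℂ (cf aL b c' e)) with hA₁
  -- a large exponent
  have hinj : Function.Injective fun n : ℕ => L.val (τ ^ n) := by
    intro n n' hnn
    have h3 : τ ^ n = τ ^ n' := L.val.injective hnn
    have h4 := congrArg (hgt ℂ) h3
    rw [hgt_pow hτ0, hgt_pow hτ0] at h4
    have h5 : (0 : ℤ) < hgt ℂ τ := by
      rw [Pool.Agent.W603.PV.hgt_eq_finrank hτ]
      have := IsFF.finite hτ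
      exact_mod_cast Module.finrank_pos
    have h6 : (n : ℤ) = n' := by
      exact mul_right_cancel₀ h5.ne' h4
    exact_mod_cast h6
  have hbad : {n : ℕ | L.val (τ ^ n) ∈ ({t : AlgebraicClosure F | t ≠ 0 ∧ laur a b t c = 0} ∪
      {t : AlgebraicClosure F | t ≠ 0 ∧ laur a b t c' = 0} ∪
      {t : AlgebraicClosure F | t ≠ 0 ∧ aeval (laur a b t) (H j₁) = 0})}.Finite :=
    Set.Finite.preimage hinj.injOn ((hZc.union hZc').union hZH)
  obtain ⟨n, hn1, hn2⟩ : ∃ n : ℕ, K * (A₁ + B) < n ∧ n ∉ {n : ℕ | L.val (τ ^ n) ∈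
      ({t : AlgebraicClosure F | t ≠ 0 ∧ laur a b t c = 0} ∪
      {t : AlgebraicClosure F | t ≠ 0 ∧ laur a b t c' = 0} ∪
      {t : AlgebraicClosure F | t ≠ 0 ∧ aeval (laur a b t) (H j₁) = 0})} := by
    obtain ⟨n, hn, hn'⟩ := (hbad.infinite_compl).exists_gt (K * (A₁ + B)).toNat
    exact ⟨n, by omega, hn⟩
  have hg0 : L.val (τ ^ n) ≠ 0 := (map_ne_zero _).2 (pow_ne_zero _ hτ0)
  have hgL0 : τ ^ n ≠ 0 := pow_ne_zero _ hτ0
  simp only [Set.mem_union, Set.mem_ofPred_eq, not_or, not_and] at hn2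
  obtain ⟨⟨hnc, hnc'⟩, hnH⟩ := hn2
  let x : Fin M → L := laur aL b (τ ^ n)
  have hxc : x c ≠ 0 := by
    intro h3
    apply hnc hg0
    rw [← hlaur]
    show L.val (x c) = 0
    rw [h3, map_zero]
  have hxc' : x c' ≠ 0 := by
    intro h3
    apply hnc' hg0
    rw [← hlaur]
    show L.val (x c') = 0
    rw [h3, map_zero]
  have hpt : IsSPoint m G Q H S x := by
    refine ⟨fun h0 => hxc (by rw [h0]; rfl), ⟨fun c i => aL c i * (τ ^ n) ^ b c i,
      fun c i => ?_, fun c => rfl⟩, fun j => ?_, ?_, ?_⟩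
    · show aL c i * (τ ^ n) ^ b c i = 0 ∨ UnitOff S (aL c i * (τ ^ n) ^ b c i)
      by_cases h3 : aL c i = 0
      · left
        rw [h3, zero_mul]
      · right
        refine ⟨mul_ne_zero h3 (zpow_ne_zero _ hgL0), fun P hP => ?_⟩
        rw [P.ord_mul h3 (zpow_ne_zero _ hgL0), P.ord_zpow, P.ord_pow, hSτ P hP, hSa c i P hP]
        simp
    · apply L.val.injective
      rw [map_zero]
      show L.val (aeval (laur aL b (τ ^ n)) (G j)) = 0
      rw [haev]
      exact (h1 _ hg0).1 j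
    · have h3 : aeval x Q = (τ ^ n) ^ e₀ * qL := by
        have g1 : L.val (aeval x Q) = L.val ((τ ^ n) ^ e₀ * qL) := by
          show L.val (aeval (laur aL b (τ ^ n)) Q) = _
          rw [haev, hQ _ hg0, map_mul, map_zpow₀, hqL]
        exact L.val.injective g1
      rw [h3]
      refine ⟨mul_ne_zero (zpow_ne_zero _ hgL0) hqL0, fun P hP => ?_⟩
      rw [P.ord_mul (zpow_ne_zero _ hgL0) hqL0, P.ord_zpow, P.ord_pow, hSτ P hP, hSq P hP]
      simp
    · intro h3
      apply hnH hg0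
      rw [← haev]
      show L.val (aeval x (H j₁)) = 0
      rw [h3 j₁, map_zero]
  have h3 : height ℂ x ≤ B := hB x hpt
  have h4 := Pool.Agent.W2helper39.SB.hgt_le_height (k := ℂ) x c c' hxc hxc'
  obtain ⟨f, hf⟩ : ∃ f, f = x c / x c' := ⟨_, rfl⟩
  rw [← hf] at h4
  have h5 : ∀ e ∈ exps b, hgt ℂ (cf aL b c e - f * cf aL b c' e) ≤ A₁ + B := by
    intro e he
    have g1 : hgt ℂ (cf aL b c e - f * cf aL b c' e) ≤
        hgt ℂ (cf aL b c e) + (hgt ℂ f + hgt ℂ (cf aL b c' e)) := by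
      rw [sub_eq_add_neg]
      refine (hgt_add _ _).trans ?_
      rw [hgt_neg]
      exact add_le_add le_rfl (hgt_mul' _ _)
    have g2 : hgt ℂ (cf aL b c e) + hgt ℂ (cf aL b c' e) ≤ A₁ :=
      Finset.single_le_sum (f := fun e => hgt ℂ (cf aL b c e) + hgt ℂ (cf aL b c' e))
        (fun e _ => add_nonneg (hgt_nonneg _) (hgt_nonneg _)) he
    linarith
  have h6 : ∃ e ∈ exps b, cf aL b c e - f * cf aL b c' e ≠ 0 := by
    by_contra h7
    push Not at h7
    have h8 : ∀ w : AlgebraicClosure F, laur a b w c = L.val f * laur a b w c' := by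
      intro w
      rw [hla, hla, Finset.mul_sum]
      refine Finset.sum_congr rfl fun e he => ?_
      have h9 := congrArg L.val (sub_eq_zero.1 (h7 e he))
      rw [map_mul, hcf, hcf] at h9
      rw [h9]
      ring
    apply hne
    rw [h8 t, h8 u]
    ring
  have h7 : ∑ e ∈ exps b, (cf aL b c e - f * cf aL b c' e) * (τ ^ n) ^ e = 0 := by
    have g1 : ∑ e ∈ exps b, (cf aL b c e - f * cf aL b c' e) * (τ ^ n) ^ e =
        x c - f * x c' := by
      show _ = laur aL b (τ ^ n) c - f * laur aL b (τ ^ n) c'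
      rw [hlaL, hlaL, Finset.mul_sum, ← Finset.sum_sub_distrib]
      refine Finset.sum_congr rfl fun e _ => ?_
      ring
    rw [g1, hf, div_mul_cancel₀ _ hxc', sub_self]
  have h8 := hK L _ (A₁ + B) (τ ^ n) hgL0 h5 h6 h7
  rw [hgt_pow hτ0] at h8
  have h9 : (1 : ℤ) ≤ hgt ℂ τ := by
    rw [Pool.Agent.W603.PV.hgt_eq_finrank hτ]
    have := IsFF.finite hτ
    exact_mod_cast Module.finrank_pos
  have h10 : (n : ℤ) ≤ n * hgt ℂ τ := le_mul_of_one_le_right (Int.natCast_nonneg n) h9
  linarith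

theorem bounded_of_vojta (h : VojtaInequality m G Q H) : BoundedHeights m G Q H := by
  obtain ⟨C, hC⟩ := h
  exact fun L _ _ _ _ _ _ S => ⟨_, fun x hx => hC L S x hx⟩

theorem vojta_of_power (h : PowerInequality m G Q H) : VojtaInequality m G Q H := by
  classical
  obtain ⟨N₀, C, hC⟩ := h
  refine ⟨C, fun L _ _ _ _ _ _ S x hx => ?_⟩
  obtain ⟨hx0, ⟨t, ht, hxt⟩, hG, hQ, hV⟩ := hx
  have h1 := hC L S N₀ (fun c i => if t c i = 0 then 0 else 1)
    (fun c i => if t c i = 0 then 1 else t c i) 1 (aeval x Q) x le_rfl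
    ⟨fun c i => by
      show PowerOff S N₀ (if t c i = 0 then 1 else t c i)
      by_cases h0 : t c i = 0
      · rw [if_pos h0]
        exact Pool.Agent.W2helper39.FB.PowerOff.one
      · rw [if_neg h0]
        have h2 := (ht c i).resolve_left h0
        exact ⟨h2.1, fun P hP => by rw [h2.2 P hP]; exact dvd_zero _⟩,
    ⟨hQ.1, fun P hP => by rw [hQ.2 P hP]; exact dvd_zero _⟩,
    fun c => by
      rw [hxt]
      refine Finset.sum_congr rfl fun i _ => ?_
      by_cases h0 : t c i = 0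
      · simp [h0]
      · simp [h0],
    hx0, hG, (one_mul _).symm, one_ne_zero, hV⟩
  have h3 : ∑ c, ∑ i, hgt ℂ (if t c i = 0 then (0 : L) else 1) = 0 := by
    refine Finset.sum_eq_zero fun c _ => Finset.sum_eq_zero fun i _ => ?_
    by_cases h0 : t c i = 0
    · rw [if_pos h0, hgt_zero]
    · rw [if_neg h0, hgt_one]
  rw [h3, hgt_one, add_zero, add_zero] at h1
  exact h1

theorem tfae [Finite ι] : List.TFAE [GmIn m G Q H, BoundedHeights m G Q H,
    VojtaInequality m G Q H, PowerInequality m G Q H] := by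
  tfae_have 1 → 4 := power_of_gm
  tfae_have 4 → 3 := vojta_of_power
  tfae_have 3 → 2 := bounded_of_vojta
  tfae_have 2 → 1 := gm_of_bounded
  tfae_finish

end Pool.Agent.W2helper39.VF
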