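import Mathlib
import Pool.Agent.W2helper39.FB.Defs

/-!
Vojta's inequality for the points of bounded complexity in families of pairs of log general type over
function fields, with uniform constants.
-/

set_option autoImplicit false

namespace Pool.Agent.W2helper39.VF

open MvPolynomial FF
open Pool.Agent.W2helper39.FB (UnitOff PowerOff chi IsPoint OnBase NonzeroOn fib)
open Pool.Agent.W2helper39.MU (val)
open Pool.Agent.Results.MP_70ba79_ag.SparseCurves (height)
open Pool.Agent.W603.LV (hgt)

/-- Let `s` be parameters in the function field `K`. For all finite extensions `L` of `K` of genus `g` and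
all points `x` over `L` of the fibre over `s`, outside `{H = 0}`, whose coordinates are sums of `m` terms
`a u` and with `Q (x) = q v ≠ 0`, where the orders outside `S` of the zeros and poles of `u` and `v` are
multiples of a number `N ≥ N₀` (see `IsPoint`), the height of `x` relative to `L` is at most
`C (max (2 g - 2 + #S, 0) + [L : K] ∑ h (s j) + ∑ h (a) + h (q))`. -/
def VojtaAt {ι : Type} {r M : ℕ} (m : ℕ) (G : ι → MvPolynomial (Fin r ⊕ Fin M) ℂ)
    (Q H : MvPolynomial (Fin r ⊕ Fin M) ℂ) (N₀ C : ℕ) {K : Type} [Field K] [Algebra ℂ K]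
    (s : Fin r → K) : Prop :=
  ∀ (L : Type) [Field L] [Algebra ℂ L] [Algebra K L] [IsScalarTower ℂ K L]
    [FiniteDimensional K L] [IsFF ℂ L] (S : Finset (Place ℂ L)) (N : ℕ)
    (a u : Fin M → Fin m → L) (q v : L) (x : Fin M → L), N₀ ≤ N →
      IsPoint m G Q S N (fun j => algebraMap K L (s j)) a u q v x →
      val (algebraMap ℂ L) (fun j => algebraMap K L (s j)) x H ≠ 0 →
        height ℂ x ≤ C * (chi S + Module.finrank K L * ∑ j, hgt ℂ (s j) +
          ∑ c, ∑ i, hgt ℂ (a c i) + hgt ℂ q)

/-- There are `N₀`, `C` and a finite list of polynomials `H i`, forms in the coordinates `x`, such that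
for each function field `K` and each point `s` over `K` of the base `{F = 0, R ≠ 0}` there is an `i`, such
that `H i (s, ·)` does not vanish on all of the fibre over the algebraic closure of `K`, and the inequality
`VojtaAt` holds for `s` and `H i`. -/
def UniformVojta {ι : Type} {f r M : ℕ} (m : ℕ) (G : ι → MvPolynomial (Fin r ⊕ Fin M) ℂ)
    (Q : MvPolynomial (Fin r ⊕ Fin M) ℂ) (F : Fin f → MvPolynomial (Fin r) ℂ)
    (R : MvPolynomial (Fin r) ℂ) : Prop :=
  ∃ (N₀ C l : ℕ) (H : Fin l → MvPolynomial (Fin r ⊕ Fin M) ℂ),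
    (∀ i, ∃ n, ∀ s, (fib s (H i)).IsHomogeneous n) ∧
    ∀ (K : Type) [Field K] [Algebra ℂ K] [IsFF ℂ K] (s : Fin r → K), OnBase F R s →
      ∃ i, NonzeroOn G Q (H i) (fun j => algebraMap K (AlgebraicClosure K) (s j)) ∧
        VojtaAt m G Q (H i) N₀ C s

end Pool.Agent.W2helper39.VF
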