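import Mathlib
import Pool.Agent.W2helper39.VF.FamDefs
import Pool.Agent.W2helper39.FB.Final
import Pool.Agent.W603.PV.Ext

/-!
Uniform inequalities for families of varieties of log general type over function fields.
-/

set_option autoImplicit false
set_option linter.unusedSectionVars false

namespace Pool.Agent.W2helper39.VF

open MvPolynomial Filter FF
open Pool.Agent.W2helper39.MU hiding GmIn lgt hom_zero InU InV
open Pool.Agent.W2helper39.FB hiding GmIn
open Pool.Agent.Results.MP_70ba79_ag.SparseCurves (height)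

/-- **Uniform inequalities.** -/
theorem uniform_vojta (m : ℕ) {f r N c g : ℕ} (G : Fin g → MvPolynomial (Fin r ⊕ Fin (N + 1 + c)) ℂ)
    (Q : MvPolynomial (Fin r ⊕ Fin (N + 1 + c)) ℂ) (F : Fin f → MvPolynomial (Fin r) ℂ)
    (R : MvPolynomial (Fin r) ℂ)
    (h : ∀ s : Fin r → ℂ, OnBase F R s → GeneralTypePair N (fun j => fib s (G j)) (fib s Q)) :
    UniformVojta m G Q F R := by
  classical
  -- the field of definition
  let P1 : Fin g ⊕ Unit → MvPolynomial (Fin r ⊕ Fin (N + 1 + c)) ℂ := Sum.elim G fun _ => Q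
  let P2 : Fin f ⊕ Unit → MvPolynomial (Fin r) ℂ := Sum.elim F fun _ => R
  let K₀ : Subfield ℂ := Subfield.closure ((coeffField P1 : Set ℂ) ∪ (coeffField P2 : Set ℂ))
  have hK : Countable K₀ := by
    have h1 := countable_coeffField P1
    have h2 := countable_coeffField P2
    rw [← Cardinal.mk_le_aleph0_iff]
    refine (Subfield.cardinalMk_closure_le_max _).trans (max_le ?_ le_rfl)
    rw [Cardinal.le_aleph0_iff_set_countable]
    exact (Set.countable_coe_iff.1 h1).union (Set.countable_coe_iff.1 h2)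
  have hl1 : ∀ i, ∃ P₀ : MvPolynomial (Fin r ⊕ Fin (N + 1 + c)) K₀,
      map K₀.subtype P₀ = P1 i := fun i => exists_lift K₀ _ fun d hd =>
    Subfield.subset_closure (Or.inl (mem_coeffField P1 i d hd))
  have hl2 : ∀ i, ∃ P₀ : MvPolynomial (Fin r) K₀, map K₀.subtype P₀ = P2 i := fun i =>
    exists_lift K₀ _ fun d hd => Subfield.subset_closure (Or.inr (mem_coeffField P2 i d hd))
  choose L1 hL1 using hl1
  choose L2 hL2 using hl2
  let G₀ : Fin g → MvPolynomial (Fin r ⊕ Fin (N + 1 + c)) K₀ := fun j => L1 (Sum.inl j)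
  let Q₀ : MvPolynomial (Fin r ⊕ Fin (N + 1 + c)) K₀ := L1 (Sum.inr ())
  let F₀ : Fin f → MvPolynomial (Fin r) K₀ := fun j => L2 (Sum.inl j)
  let R₀ : MvPolynomial (Fin r) K₀ := L2 (Sum.inr ())
  have hG : (fun j => map K₀.subtype (G₀ j)) = G := funext fun j => hL1 (Sum.inl j)
  have hQ : map K₀.subtype Q₀ = Q := hL1 (Sum.inr ())
  have hF : (fun j => map K₀.subtype (F₀ j)) = F := funext fun j => hL2 (Sum.inl j)
  have hR : map K₀.subtype R₀ = R := hL2 (Sum.inr ())
  clear_value G₀ Q₀ F₀ R₀ K₀
  subst hG hQ hF hR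
  obtain ⟨N₀, C, B, hD⟩ := dichotomy (m := m) (G := fun j => map K₀.subtype (G₀ j))
    (Q := map K₀.subtype Q₀)
  obtain ⟨l, H, hH, hW⟩ := exists_list G₀ Q₀ m hK F₀ R₀ h
  refine ⟨N₀, C, l, fun i => map K₀.subtype (H i), hH, fun K _ _ _ s hs => ?_⟩
  obtain ⟨θ, hθ⟩ := exists_cl K₀ hK K
  let ρ : K →+* ℂ := (θ : AlgebraicClosure K →+* ℂ).comp (algebraMap K (AlgebraicClosure K))
  have hψ : (ρ.comp (algebraMap ℂ K)).comp K₀.subtype = K₀.subtype := RingHom.ext fun x => hθ x
  let s' : Fin r → ℂ := fun j => ρ (s j)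
  have hev : ∀ P : MvPolynomial (Fin r) K₀, aeval s' (map K₀.subtype P) =
      ρ (aeval s (map K₀.subtype P)) := by
    intro P
    have h1 : aeval s (map K₀.subtype P) =
        eval₂ ((algebraMap ℂ K).comp K₀.subtype) s P := by
      rw [aeval_def, eval₂_map]
    have h2 : aeval s' (map K₀.subtype P) = eval₂ K₀.subtype s' P := by
      rw [aeval_eq_eval, eval_map]
    rw [h1, h2, eval₂_comp_left ρ]
    have h3 : ρ.comp ((algebraMap ℂ K).comp K₀.subtype) = K₀.subtype := hψ
    rw [h3]
    rfl
  have hs' : OnBase (fun j => map K₀.subtype (F₀ j)) (map K₀.subtype R₀) s' := by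
    refine ⟨fun j => ?_, ?_⟩
    · rw [hev, hs.1 j, map_zero]
    · rw [hev]
      exact (map_ne_zero ρ).2 hs.2
  obtain ⟨i, hi⟩ := hW s' hs'
  refine ⟨i, ?_, fun L _ _ _ _ _ _ S N' a u q v x hN hp hx => ?_⟩
  · obtain ⟨z, hz0, ⟨hz1, hz2⟩, hz3⟩ := hi.1
    let z' : Fin (N + 1 + c) → AlgebraicClosure K := fun c => θ.symm (z c)
    let sL : Fin r → AlgebraicClosure K := fun j => algebraMap K (AlgebraicClosure K) (s j)
    have hval : ∀ P : MvPolynomial (Fin r ⊕ Fin (N + 1 + c)) K₀,
        θ (val (algebraMap ℂ (AlgebraicClosure K)) sL z' (map K₀.subtype P)) =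
          val K₀.subtype s' z P := by
      intro P
      rw [val_map']
      have h1 := val_hom (θ : AlgebraicClosure K →+* ℂ)
        ((algebraMap ℂ (AlgebraicClosure K)).comp K₀.subtype) sL z' P
      have h2 : (θ : AlgebraicClosure K →+* ℂ).comp
          ((algebraMap ℂ (AlgebraicClosure K)).comp K₀.subtype) = K₀.subtype :=
        RingHom.ext fun x => hθ x
      rw [h2] at h1
      have h3 : (fun c => (θ : AlgebraicClosure K →+* ℂ) (z' c)) = z := by
        funext c
        exact RingEquiv.apply_symm_apply θ (z c)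
      rw [h3] at h1
      exact h1.symm
    refine ⟨z', ?_, ⟨fun j => ?_, ?_⟩, ?_⟩
    · intro h0
      apply hz0
      funext c
      have h1 := congrFun h0 c
      have h2 : θ.symm (z c) = 0 := h1
      rwa [map_eq_zero_iff θ.symm θ.symm.injective] at h2
    · apply θ.injective
      rw [hval, hz1 j, map_zero]
    · intro h0
      apply hz2
      rw [← hval, h0, map_zero]
    · intro h0
      apply hz3
      rw [← hval, h0, map_zero]
  · rcases hD L S N' _ a u q v x hN hp with h1 | ⟨b, -, hb⟩
    · refine h1.trans (le_of_eq ?_)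
      unfold size
      have h2 : ∑ j, Pool.Agent.W603.LV.hgt ℂ (algebraMap K L (s j)) =
          Module.finrank K L * ∑ j, Pool.Agent.W603.LV.hgt ℂ (s j) := by
        rw [Finset.mul_sum]
        exact Finset.sum_congr rfl fun j _ => Pool.Agent.W603.PV.hgt_algebraMap _
      rw [h2]
    · exfalso
      have h2 : x = fun c => ∑ i, a c i * u c i := funext fun c => hp.2.2.1 c
      rw [h2] at hx
      apply hx
      let η : L →ₐ[K] AlgebraicClosure K := IsAlgClosed.lift
      let ρL : L →+* ℂ := (θ : AlgebraicClosure K →+* ℂ).comp (η : L →+* AlgebraicClosure K)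
      have hρL : ∀ y : K, ρL (algebraMap K L y) = ρ y := by
        intro y
        show θ (η (algebraMap K L y)) = θ (algebraMap K (AlgebraicClosure K) y)
        rw [η.commutes]
      have hψL : (ρL.comp (algebraMap ℂ L)).comp K₀.subtype = K₀.subtype := by
        refine RingHom.ext fun y => ?_
        show ρL (algebraMap ℂ L (y : ℂ)) = (y : ℂ)
        rw [IsScalarTower.algebraMap_apply ℂ K L, hρL]
        exact hθ y
      have h3 := hb.map ρL
      have h7 : (fun j => ρL (algebraMap K L (s j))) = s' := funext fun j => hρL (s j)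
      rw [h7] at h3
      have h4 := zero_of_good hψL hi h3
      apply ρL.injective
      rw [map_zero, ← h4, val_map']
      have h5 := val_hom ρL ((algebraMap ℂ L).comp K₀.subtype) (fun j => algebraMap K L (s j))
        (fun c => ∑ i, a c i * u c i) (H i)
      have h6 : ρL.comp ((algebraMap ℂ L).comp K₀.subtype) = K₀.subtype := hψL
      rw [h6, h7] at h5
      rw [← h5]
      congr 1
      funext c
      rw [map_sum]

end Pool.Agent.W2helper39.VF
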